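import Pool.Agent.H77.ST.CUM

/-!
A countable well-founded model of ZF in which countable unions of countable sets are countable,
but some compact metrizable space is not separable.
-/

namespace Pool.Agent.Results.MP_4abb39_lc.CUCwithoutMCS

open STZ ST.CU

/-- There is a countable well-founded model of ZF in which the union of every countable family of
countable sets is countable and in which some compact metrizable space has no countable dense
subset. -/
theorem result : ∃ (N : Type) (E : N → N → Prop), ZF E ∧ Countable N ∧ WellFounded E ∧
    CUC E ∧ ¬ MCS E :=
  ST.CU.main

end Pool.Agent.Results.MP_4abb39_lc.CUCwithoutMCS
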